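import Mathlib

/-!
Two-sparse phase retrieval: the lifted measurements.
-/

open Complex

namespace Pool.Agent.P.MP_32bf8a_an

/-- the value of the Hermitian form with entries `D`, `A`, `P` at `(a, b)` -/
def ph (D : ℝ) (A : ℂ) (P : ℝ) (a b : ℂ) : ℝ :=
  D * (a.re ^ 2 + a.im ^ 2) +
    2 * (A.re * (a.re * b.re + a.im * b.im) - A.im * (a.im * b.re - a.re * b.im)) +
    P * (b.re ^ 2 + b.im ^ 2)

theorem normSq_eq_ph (α t a b : ℂ) :
    normSq (α * a + t * b) = ph (normSq α) (α * (starRingEnd ℂ) t) (normSq t) a b := by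
  simp only [ph, normSq_apply, add_re, add_im, mul_re, mul_im, conj_re, conj_im]
  ring

theorem norm_eq_iff (z w : ℂ) : ‖z‖ = ‖w‖ ↔ normSq z = normSq w := by
  rw [normSq_eq_norm_sq, normSq_eq_norm_sq]
  exact (pow_left_inj₀ (norm_nonneg _) (norm_nonneg _) two_ne_zero).symm

variable {κ : Type*}

def ND (a b : κ → ℂ) : Prop :=
  ∀ (D : ℝ) (A : ℂ) (P : ℝ), (∀ j, ph D A P (a j) (b j) = 0) → D = 0 ∧ A = 0 ∧ P = 0

def Pair (a b : κ → ℂ) : Prop :=
  ∀ α t β s : ℂ, (∀ j, normSq (α * a j + t * b j) = normSq (β * a j + s * b j)) →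
    ∃ γ : ℂ, ‖γ‖ = 1 ∧ α = γ * β ∧ t = γ * s

theorem ND.symm {a b : κ → ℂ} (h : ND a b) : ND b a := by
  intro D A P hj
  obtain ⟨h1, h2, h3⟩ := h P ((starRingEnd ℂ) A) D fun j => by
    rw [← hj j]; simp only [ph, conj_re, conj_im]; ring
  exact ⟨h3, by simpa using h2, h1⟩

theorem ND.pair {a b : κ → ℂ} (h : ND a b) : Pair a b := by
  intro α t β s hj
  obtain ⟨h1, h2, h3⟩ := h (normSq α - normSq β) (α * (starRingEnd ℂ) t - β * (starRingEnd ℂ) s)
    (normSq t - normSq s) fun j => by
      have := hj j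
      rw [normSq_eq_ph, normSq_eq_ph] at this
      simp only [ph, sub_re, sub_im] at this ⊢
      linarith
  rw [sub_eq_zero] at h1 h2 h3
  by_cases hβ : β = 0
  · have hα : α = 0 := by rwa [hβ, map_zero, normSq_eq_zero] at h1
    by_cases hs : s = 0
    · have ht : t = 0 := by rwa [hs, map_zero, normSq_eq_zero] at h3
      exact ⟨1, by simp, by simp [hα, hβ], by simp [hs, ht]⟩
    · refine ⟨t / s, ?_, by simp [hα, hβ], by field_simp⟩
      rw [norm_div, (norm_eq_iff _ _).2 h3, div_self (norm_ne_zero_iff.2 hs)]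
  · refine ⟨α / β, ?_, by field_simp, ?_⟩
    · rw [norm_div, (norm_eq_iff _ _).2 h1, div_self (norm_ne_zero_iff.2 hβ)]
    · have h4 := congrArg (starRingEnd ℂ) h2
      simp only [map_mul, conj_conj] at h4
      have h5 : α * (starRingEnd ℂ) α = β * (starRingEnd ℂ) β := by
        rw [mul_conj, mul_conj, h1]
      have h6 : (starRingEnd ℂ) β ≠ 0 := by simpa using hβ
      field_simp
      apply mul_left_cancel₀ h6
      linear_combination α * h4 - t * h5

/-- a form with positive last entry is a square plus a multiple of the first square -/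
theorem ph_eq_sq {P : ℝ} (hP : 0 < P) (D : ℝ) (A a b : ℂ) :
    ph D A P a b = normSq (A / (√P : ℝ) * a + (√P : ℝ) * b) + (D - normSq A / P) * normSq a := by
  have h1 : √P ≠ 0 := by positivity
  have h2 : ((√P : ℝ) : ℂ) ≠ 0 := by exact_mod_cast h1
  rw [normSq_eq_ph, conj_ofReal, div_mul_cancel₀ _ h2, map_div₀, normSq_ofReal,
    Real.mul_self_sqrt hP.le]
  simp only [ph, normSq_apply]
  ring

theorem ph_neg (D : ℝ) (A : ℂ) (P : ℝ) (a b : ℂ) : ph (-D) (-A) (-P) a b = -ph D A P a b := by
  simp only [ph, neg_re, neg_im]; ring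

theorem Pair.nd {a b : κ → ℂ} (h : Pair a b) : ND a b := by
  have h0 : ∀ α t : ℂ, (∀ j, normSq (α * a j + t * b j) = 0) → α = 0 ∧ t = 0 := by
    intro α t hj
    obtain ⟨γ, -, h1, h2⟩ := h α t 0 0 fun j => by simpa using hj j
    exact ⟨by simpa using h1, by simpa using h2⟩
  have key : ∀ (D : ℝ) (A : ℂ) (P : ℝ), (∀ j, ph D A P (a j) (b j) = 0) → ¬ 0 < P := by
    intro D A P hj hP
    have h1 : ((√P : ℝ) : ℂ) ≠ 0 := by
      have : √P ≠ 0 := by positivity
      exact_mod_cast this
    rcases le_total 0 (D - normSq A / P) with hD | hD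
    · refine h1 (h0 (A / (√P : ℝ)) _ fun j => ?_).2
      have := hj j
      rw [ph_eq_sq hP] at this
      nlinarith [normSq_nonneg (A / (√P : ℝ) * a j + (√P : ℝ) * b j),
        mul_nonneg hD (normSq_nonneg (a j))]
    · obtain ⟨γ, -, -, h2⟩ := h (A / (√P : ℝ)) (√P : ℝ) (√(normSq A / P - D) : ℝ) 0 fun j => by
        have := hj j
        rw [ph_eq_sq hP] at this
        rw [zero_mul, add_zero, map_mul, normSq_ofReal, Real.mul_self_sqrt (by linarith)]
        linarith
      exact h1 (by simpa using h2)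
  intro D A P hj
  have hP : P = 0 := by
    have h1 := key D A P hj
    have h2 := key (-D) (-A) (-P) fun j => by rw [ph_neg, hj j, neg_zero]
    linarith [not_lt.1 h1, not_lt.1 h2]
  subst hP
  have hA : A = 0 := by
    by_contra hA
    have hn : normSq A ≠ 0 := by simpa using hA
    obtain ⟨γ, -, h1, h2⟩ := h (A * ((D / (2 * normSq A) + 1 / 2 : ℝ) : ℂ)) 1
      (A * ((D / (2 * normSq A) - 1 / 2 : ℝ) : ℂ)) 1 fun j => by
        have := hj j
        rw [normSq_eq_ph, normSq_eq_ph]
        simp only [map_mul, normSq_ofReal, map_one, mul_one]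
        simp only [ph, mul_re, mul_im, ofReal_re, ofReal_im] at this ⊢
        field_simp
        linear_combination 4 * (normSq A) * this
    rw [mul_one] at h2
    rw [← h2, one_mul] at h1
    have := mul_left_cancel₀ hA h1
    rw [ofReal_inj] at this
    linarith
  subst hA
  refine ⟨?_, rfl, rfl⟩
  by_contra hD
  have := (h0 1 0 fun j => by
    have := hj j
    simp only [ph, zero_re, zero_im] at this
    have h2 : (a j).re ^ 2 + (a j).im ^ 2 = 0 := by
      apply mul_left_cancel₀ hD; linarith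
    simp only [one_mul, zero_mul, add_zero, normSq_apply]
    linarith).1
  exact one_ne_zero this

/-- the lifted measurement map -/
noncomputable def lift (a b : κ → ℂ) : (ℝ × ℂ × ℝ) →ₗ[ℝ] (κ → ℝ) where
  toFun v j := ph v.1 v.2.1 v.2.2 (a j) (b j)
  map_add' v w := by
    funext j; simp only [ph, Prod.fst_add, Prod.snd_add, add_re, add_im, Pi.add_apply]; ring
  map_smul' c v := by
    funext j
    simp only [ph, Prod.smul_fst, Prod.smul_snd, smul_eq_mul, smul_re, smul_im, Pi.smul_apply,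
      RingHom.id_apply]
    ring

theorem ND.inj {a b : κ → ℂ} (h : ND a b) : Function.Injective (lift a b) := by
  rw [injective_iff_map_eq_zero]
  rintro ⟨D, A, P⟩ hv
  obtain ⟨rfl, rfl, rfl⟩ := h D A P fun j => congrFun hv j
  rfl

theorem finrank_dom : Module.finrank ℝ (ℝ × ℂ × ℝ) = 4 := by
  simp [Module.finrank_prod]

theorem ND.four_le {N : ℕ} {a b : Fin N → ℂ} (h : ND a b) : 4 ≤ N := by
  have := LinearMap.finrank_le_finrank_of_injective h.inj
  rwa [finrank_dom, Module.finrank_fin_fun] at this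

end Pool.Agent.P.MP_32bf8a_an
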