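import Pool.Agent.P.MP_32bf8a_an.Basic

/-!
Four measurements do not suffice for three coordinates.
-/

open Complex

namespace Pool.Agent.P.MP_32bf8a_an

def Trip {κ : Type*} (a b c : κ → ℂ) : Prop :=
  ∀ α t β s : ℂ, (∀ j, normSq (α * a j + t * b j) = normSq (β * a j + s * c j)) → t = 0 ∧ s = 0

theorem Trip.symm {κ : Type*} {a b c : κ → ℂ} (h : Trip a b c) : Trip a c b :=
  fun α t β s hj => (h β s α t fun j => (hj j).symm).symm

variable {a b c : Fin 4 → ℂ}

noncomputable def ND.eqv (h : ND a b) : (ℝ × ℂ × ℝ) ≃ₗ[ℝ] (Fin 4 → ℝ) :=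
  LinearMap.linearEquivOfInjective (lift a b) h.inj (by rw [finrank_dom, Module.finrank_fin_fun])

theorem ND.eqv_apply (h : ND a b) (v : ℝ × ℂ × ℝ) (j : Fin 4) :
    h.eqv v j = ph v.1 v.2.1 v.2.2 (a j) (b j) := rfl

theorem ND.surj (h : ND a b) (m : Fin 4 → ℝ) : ∃ D A P, ∀ j, ph D A P (a j) (b j) = m j :=
  ⟨(h.eqv.symm m).1, (h.eqv.symm m).2.1, (h.eqv.symm m).2.2, fun j => by
    rw [← h.eqv_apply, LinearEquiv.apply_symm_apply]⟩

theorem ND.row (h : ND a b) (j : Fin 4) (ha : a j = 0) : b j ≠ 0 := by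
  intro hb
  obtain ⟨D, A, P, h1⟩ := h.surj fun _ => 1
  have := h1 j
  simp [ph, ha, hb] at this

theorem ND.exists_ne (h : ND a b) : ∃ j, a j ≠ 0 := by
  by_contra hn
  push Not at hn
  have := (h 1 0 0 fun j => by simp [ph, hn j]).1
  exact one_ne_zero this

theorem det_ne (ht : Trip a b c) (β : ℂ) (D : ℝ) (A : ℂ) (P : ℝ)
    (hj : ∀ j, ph D A P (a j) (b j) = normSq (β * a j + c j)) : D * P - normSq A ≠ 0 := by
  intro hd
  have z : (∀ j, normSq (β * a j + c j) = 0) → False := fun h0 =>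
    one_ne_zero (ht 0 0 β 1 fun j => by simpa using (h0 j).symm).2
  rcases lt_trichotomy 0 P with hP | rfl | hP
  · refine one_ne_zero (ht (A / (√P : ℝ)) (√P : ℝ) β 1 fun j => ?_).2
    have := hj j
    rw [ph_eq_sq hP, show D - normSq A / P = 0 by field_simp; linarith] at this
    simpa using this
  · have hA : A = 0 := by simpa using hd
    subst hA
    rcases le_total 0 D with hD | hD
    · refine one_ne_zero (ht (√D : ℝ) 0 β 1 fun j => ?_).2
      rw [one_mul, ← hj j, zero_mul, add_zero, map_mul, normSq_ofReal, Real.mul_self_sqrt hD]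
      simp [ph, normSq_apply, sq]
    · refine z fun j => le_antisymm ?_ (normSq_nonneg _)
      rw [← hj j]
      simp only [ph, zero_re, zero_im]
      nlinarith [sq_nonneg (a j).re, sq_nonneg (a j).im]
  · refine z fun j => le_antisymm ?_ (normSq_nonneg _)
    have h1 := ph_neg D A P (a j) (b j)
    rw [ph_eq_sq (neg_pos.2 hP), normSq_neg,
      show -D - normSq A / -P = 0 by field_simp [hP.ne]; linarith, hj j] at h1
    nlinarith [normSq_nonneg (-A / (√(-P) : ℝ) * a j + (√(-P) : ℝ) * b j)]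

theorem det_neg (h : ND a b) (ht : Trip a b c) (β : ℂ) (D : ℝ) (A : ℂ) (P : ℝ)
    (hj : ∀ j, ph D A P (a j) (b j) = normSq (β * a j + c j)) : D * P - normSq A < 0 := by
  let H : ℂ → ℝ × ℂ × ℝ := fun β => h.eqv.symm fun j => normSq (β * a j + c j)
  have hH : ∀ β j, ph (H β).1 (H β).2.1 (H β).2.2 (a j) (b j) = normSq (β * a j + c j) :=
    fun β j => by rw [← h.eqv_apply, LinearEquiv.apply_symm_apply]
  have hc : Continuous H := h.eqv.symm.toLinearMap.continuous_of_finiteDimensional.comp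
    (continuous_pi fun j => by fun_prop)
  let δ : ℂ → ℝ := fun β => (H β).1 * (H β).2.2 - normSq (H β).2.1
  have hδ : Continuous δ := by fun_prop
  obtain ⟨j, hj0⟩ := h.exists_ne
  have h1 : δ (-c j / a j) ≤ 0 := by
    by_contra hn
    have h2 := hH (-c j / a j) j
    rw [div_mul_cancel₀ _ hj0, neg_add_cancel, map_zero] at h2
    simp only [δ, not_le] at hn
    generalize H (-c j / a j) = v at hn h2
    obtain ⟨D, A, P⟩ := v
    simp only at hn h2
    have h3 : 0 < normSq (a j) := normSq_pos.2 hj0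
    rcases lt_trichotomy 0 P with hP | rfl | hP
    · rw [ph_eq_sq hP] at h2
      have : 0 < D - normSq A / P := by rw [sub_pos, div_lt_iff₀ hP]; linarith
      nlinarith [normSq_nonneg (A / (√P : ℝ) * a j + (√P : ℝ) * b j), mul_pos this h3]
    · nlinarith [normSq_nonneg A]
    · have h4 := ph_neg D A P (a j) (b j)
      rw [ph_eq_sq (neg_pos.2 hP), normSq_neg, h2] at h4
      have : 0 < -D - normSq A / -P := by rw [sub_pos, div_lt_iff₀ (neg_pos.2 hP)]; linarith
      nlinarith [normSq_nonneg (-A / (√(-P) : ℝ) * a j + (√(-P) : ℝ) * b j), mul_pos this h3]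
  have h2 : H β = (D, A, P) := by
    apply h.eqv.injective
    funext j
    rw [h.eqv_apply, h.eqv_apply, hH, hj]
  by_contra hn
  obtain ⟨β', h3⟩ := intermediate_value_univ (-c j / a j) β hδ (show (0 : ℝ) ∈ _ from
    ⟨h1, by simp only [δ, h2]; linarith⟩)
  exact det_ne ht β' _ _ _ (hH β') h3

theorem last_nonpos (h : ND a b) (h' : ND a c) (ht : Trip a b c) (β : ℂ) (D : ℝ) (A : ℂ) (P : ℝ)
    (hj : ∀ j, ph D A P (a j) (b j) = normSq (β * a j + c j)) : P ≤ 0 := by
  by_contra hP
  rw [not_le] at hP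
  have h1 := det_neg h ht β D A P hj
  have h2 := det_neg h' ht.symm (A / P) ((normSq β + normSq A / P - D) / P) (β / P) (1 / P)
    fun j => by
      have := hj j
      rw [← one_mul (c j), normSq_eq_ph] at this
      rw [← one_mul (b j), normSq_eq_ph]
      simp only [ph, map_one, mul_one, one_mul, div_ofReal_re, div_ofReal_im, map_div₀,
        normSq_ofReal] at this ⊢
      field_simp
      linear_combination (-P) * this
  rw [map_div₀, normSq_ofReal] at h2
  have h3 : (normSq β + normSq A / P - D) / P * (1 / P) - normSq β / (P * P)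
      = (normSq A - D * P) / (P * P * P) := by field_simp; ring
  rw [h3] at h2
  have : 0 < (normSq A - D * P) / (P * P * P) := div_pos (by linarith) (by positivity)
  linarith

theorem col_ne (h : ND a b) (h' : ND a c) (ht : Trip a b c) (j : Fin 4) : a j ≠ 0 := by
  intro ha
  obtain ⟨D, A, P, h1⟩ := h.surj fun j => normSq (0 * a j + c j)
  have h2 := last_nonpos h h' ht 0 D A P h1
  have h3 := h1 j
  have h4 := normSq_pos.2 (h'.row j ha)
  simp only [ph, ha, zero_re, zero_im, mul_zero, zero_add] at h3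
  nlinarith [sq_nonneg (b j).re, sq_nonneg (b j).im]

theorem exists_w (h : ND a b) (h' : ND a c) (ht : Trip a b c) :
    ∃ w : Fin 4 → ℝ, w ≠ 0 ∧ ∑ j, w j * a j * (starRingEnd ℂ) (a j) = 0 ∧
      ∑ j, w j * a j * (starRingEnd ℂ) (b j) = 0 ∧ ∑ j, w j * a j * (starRingEnd ℂ) (c j) = 0 := by
  let w : Fin 4 → ℝ := fun j => (h.eqv.symm (Pi.single j 1)).2.2
  have hw : ∀ m : Fin 4 → ℝ, ∑ j, w j * m j = (h.eqv.symm m).2.2 := by
    intro m
    conv_rhs => rw [pi_eq_sum_univ' m, map_sum]
    simp only [Prod.snd_sum, map_smul, Prod.smul_snd, smul_eq_mul, w]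
    exact Finset.sum_congr rfl fun j _ => mul_comm _ _
  have h1 : ∀ D A P, ∑ j, w j * ph D A P (a j) (b j) = P := fun D A P => by
    rw [hw, show (fun j => ph D A P (a j) (b j)) = h.eqv (D, A, P) from rfl,
      LinearEquiv.symm_apply_apply]
  have h2 : ∀ β : ℂ, ∑ j, w j * normSq (β * a j + c j) ≤ 0 := fun β => by
    obtain ⟨D, A, P, h3⟩ := h.surj fun j => normSq (β * a j + c j)
    simp only [← h3, h1]
    exact last_nonpos h h' ht β D A P h3
  have e1 := h1 1 0 0
  have e2 := h1 0 1 0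
  have e3 := h1 0 I 0
  simp only [ph, Fin.sum_univ_four, zero_re, zero_im, one_re, one_im, I_re, I_im] at e1 e2 e3
  refine ⟨w, fun h0 => ?_, ?_, ?_, ?_⟩
  · simpa [h0] using h1 0 0 1
  · apply Complex.ext <;> simp [Fin.sum_univ_four] <;> linarith
  · apply Complex.ext <;> simp [Fin.sum_univ_four] <;> linarith
  · set γ := ∑ j, w j * a j * (starRingEnd ℂ) (c j) with hγ
    have h3 : ∀ β : ℂ, 2 * (β.re * γ.re - β.im * γ.im) + ∑ j, w j * normSq (c j) ≤ 0 := fun β => by
      convert h2 β using 1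
      simp only [hγ, Fin.sum_univ_four, normSq_apply, add_re, add_im, mul_re, mul_im, conj_re,
        conj_im, ofReal_re, ofReal_im]
      linear_combination (-(β.re ^ 2 + β.im ^ 2)) * e1
    by_contra hn
    have h4 := normSq_pos.2 hn
    have h5 := h3 (((|∑ j, w j * normSq (c j)| + 1) / normSq γ : ℝ) * (starRingEnd ℂ) γ)
    have h6 := neg_abs_le (∑ j, w j * normSq (c j))
    have h7 := abs_nonneg (∑ j, w j * normSq (c j))
    generalize ∑ j, w j * normSq (c j) = K at *
    have h8 : ((|K| + 1) / normSq γ) * normSq γ = |K| + 1 := by field_simp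
    generalize (|K| + 1) / normSq γ = T at *
    simp only [mul_re, mul_im, ofReal_re, ofReal_im, conj_re, conj_im, normSq_apply] at h5 h8
    nlinarith

theorem rows3 (ha : ∀ j, a j ≠ 0) (ht : Trip a b c) (h : Fin 4 → ℂ) (j0 : Fin 4) (h0 : h j0 = 0)
    (h1 : ∑ j, h j * (starRingEnd ℂ) (a j) = 0) (h2 : ∑ j, h j * (starRingEnd ℂ) (b j) = 0)
    (h3 : ∑ j, h j * (starRingEnd ℂ) (c j) = 0) : h = 0 := by
  by_contra hn
  let M : Matrix (Fin 3) (Fin 3) ℂ := fun i k => ![a, b, c] k (j0.succAbove i)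
  have hd : M.det = 0 := by
    refine Matrix.exists_vecMul_eq_zero_iff.1 ⟨fun i => (starRingEnd ℂ) (h (j0.succAbove i)),
      fun h4 => hn ?_, ?_⟩
    · funext j
      rcases Fin.eq_self_or_eq_succAbove j0 j with rfl | ⟨i, rfl⟩
      · exact h0
      · simpa using congrFun h4 i
    · have key : ∀ x : Fin 4 → ℂ, ∑ j, h j * (starRingEnd ℂ) (x j) = 0 →
          ∑ i, (starRingEnd ℂ) (h (j0.succAbove i)) * x (j0.succAbove i) = 0 := by
        intro x hx
        rw [Fin.sum_univ_succAbove _ j0, h0, zero_mul, zero_add] at hx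
        simpa using congrArg (starRingEnd ℂ) hx
      funext k
      fin_cases k
      · exact key a h1
      · exact key b h2
      · exact key c h3
  obtain ⟨v, hv, hM⟩ := Matrix.exists_mulVec_eq_zero_iff.2 hd
  have hM' : ∀ i, a (j0.succAbove i) * v 0 + b (j0.succAbove i) * v 1 +
      c (j0.succAbove i) * v 2 = 0 := fun i => by
    simpa [M, Matrix.mulVec, dotProduct, Fin.sum_univ_three] using congrFun hM i
  obtain ⟨k1, k2⟩ := ht ((v 1 * b j0 - v 0 * a j0 - v 2 * c j0) / (2 * a j0)) (-v 1)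
    ((v 1 * b j0 - v 0 * a j0 - v 2 * c j0) / (2 * a j0) + v 0) (v 2) fun j => by
      rcases Fin.eq_self_or_eq_succAbove j0 j with rfl | ⟨i, rfl⟩
      · rw [← normSq_neg]
        congr 1
        have := ha j
        field_simp
        ring
      · congr 1
        linear_combination -hM' i
  rw [neg_eq_zero] at k1
  have k0 : v 0 = 0 := by
    have := hM' 0
    rw [k1, k2] at this
    simpa [ha] using this
  apply hv
  funext k
  fin_cases k <;> assumption

theorem not_four (hab : ND a b) (hac : ND a c) (hbc : ND b c) (ta : Trip a b c)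
    (tb : Trip b a c) : False := by
  have ha := col_ne hab hac ta
  have hb := col_ne hab.symm hbc tb
  obtain ⟨w, w0, w1, w2, w3⟩ := exists_w hab hac ta
  obtain ⟨u, u0, u2, u1, u3⟩ := exists_w hab.symm hbc tb
  have hw : ∀ j, w j ≠ 0 := fun j hj => w0 (by
    have := rows3 ha ta (fun j => w j * a j) j (by simp [hj]) w1 w2 w3
    funext i
    simpa [ha] using congrFun this i)
  have hu : ∀ j, u j ≠ 0 := fun j hj => u0 (by
    have := rows3 ha ta (fun j => u j * b j) j (by simp [hj]) u1 u2 u3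
    funext i
    simpa [hb] using congrFun this i)
  have key := rows3 ha ta (fun j => (u 0 * b 0) * (w j * a j) - (w 0 * a 0) * (u j * b j)) 0
    (by ring) (by simp only [sub_mul, Finset.sum_sub_distrib, mul_assoc (u 0 * b 0 : ℂ),
      mul_assoc (w 0 * a 0 : ℂ), ← Finset.mul_sum, w1, u1]; ring)
    (by simp only [sub_mul, Finset.sum_sub_distrib, mul_assoc (u 0 * b 0 : ℂ),
      mul_assoc (w 0 * a 0 : ℂ), ← Finset.mul_sum, w2, u2]; ring)
    (by simp only [sub_mul, Finset.sum_sub_distrib, mul_assoc (u 0 * b 0 : ℂ),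
      mul_assoc (w 0 * a 0 : ℂ), ← Finset.mul_sum, w3, u3]; ring)
  have := (hab 0 (I * b 0 * (starRingEnd ℂ) (a 0)) 0 fun j => by
    have h1 := congrFun key j
    simp only [Pi.zero_apply] at h1
    have h2 : (u 0 * w j : ℝ) * (I * b 0 * (starRingEnd ℂ) (a 0) * (a j * (starRingEnd ℂ) (b j)))
        = I * ((w 0 * u j * normSq (a 0) * normSq (b j) : ℝ) : ℂ) := by
      push_cast
      rw [← mul_conj, ← mul_conj]
      linear_combination I * (starRingEnd ℂ) (a 0) * (starRingEnd ℂ) (b j) * h1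
    have h3 := congrArg re h2
    rw [re_ofReal_mul, I_mul_re, ofReal_im, neg_zero, mul_eq_zero] at h3
    have h4 := h3.resolve_left (mul_ne_zero (hu 0) (hw j))
    generalize I * b 0 * (starRingEnd ℂ) (a 0) = A at h4
    simp only [mul_re, mul_im, conj_re, conj_im] at h4
    simp only [ph]
    linarith).2.1
  simp [ha, hb] at this

end Pool.Agent.P.MP_32bf8a_an
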