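import Pool.Agent.P.MP_32bf8a_an.Upper

/-!
From conditions on pairs of supports to two-sparse phase retrieval.
-/

open Complex

namespace Pool.Agent.P.MP_32bf8a_an

variable {ι κ : Type*} [DecidableEq ι]

/-- phase retrieval for vectors with at most two nonzero coordinates -/
def PR2 (c : ι → κ → ℂ) : Prop :=
  ∀ (a b a' b' : ι) (α t β s : ℂ), a ≠ b → a' ≠ b' →
    (∀ j, normSq (α * c a j + t * c b j) = normSq (β * c a' j + s * c b' j)) →
    ∃ γ : ℂ, ‖γ‖ = 1 ∧ (Pi.single a α + Pi.single b t : ι → ℂ) =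
      γ • (Pi.single a' β + Pi.single b' s : ι → ℂ)

theorem pr2_of {c : ι → κ → ℂ} (hP : ∀ a b, a ≠ b → ND (c a) (c b))
    (hT : ∀ a b d, a ≠ b → a ≠ d → b ≠ d → TOr (c a) (c b) (c d))
    (hQ : ∀ a b d e, a ≠ b → a ≠ d → a ≠ e → b ≠ d → b ≠ e → d ≠ e →
      QOr (c a) (c b) (c d) (c e)) : PR2 c := by
  let R : ι → ι → ι → ι → ℂ → ℂ → ℂ → ℂ → Prop := fun a b a' b' α t β s =>
    (∀ j, normSq (α * c a j + t * c b j) = normSq (β * c a' j + s * c b' j)) →
    ∃ γ : ℂ, ‖γ‖ = 1 ∧ (Pi.single a α + Pi.single b t : ι → ℂ) =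
      γ • (Pi.single a' β + Pi.single b' s : ι → ℂ)
  have s1 : ∀ {a b a' b' α t β s}, R a b a' b' α t β s → R b a a' b' t α β s := by
    intro a b a' b' α t β s h hj
    rw [add_comm]
    exact h fun j => by rw [add_comm]; exact hj j
  have s2 : ∀ {a b a' b' α t β s}, R a b a' b' α t β s → R a b b' a' α t s β := by
    intro a b a' b' α t β s h hj
    rw [add_comm (Pi.single b' s : ι → ℂ)]
    exact h fun j => by rw [add_comm (β * _)]; exact hj j
  have z1 : ∀ {a b a' b' α β s} (d), R a d a' b' α 0 β s → R a b a' b' α 0 β s := by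
    intro a b a' b' α β s d h hj
    simpa using h (by simpa using hj)
  have z2 : ∀ {a b a' b' α t β} (d), R a b a' d α t β 0 → R a b a' b' α t β 0 := by
    intro a b a' b' α t β d h hj
    simpa using h (by simpa using hj)
  have p : ∀ {a b α t β s}, a ≠ b → R a b a b α t β s := by
    intro a b α t β s h hj
    obtain ⟨γ, h1, rfl, rfl⟩ := (hP a b h).pair α t β s hj
    exact ⟨γ, h1, by simp [smul_add, ← Pi.single_smul']⟩
  have q : ∀ {a b d α t β s}, a ≠ b → a ≠ d → R a b a d α t β s := by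
    intro a b d α t β s h1 h2 hj
    by_cases h3 : b = d
    · subst h3; exact p h1 hj
    rcases hT a b d h1 h2 h3 α t β s hj with rfl | rfl
    · exact z1 d (p h2) hj
    · exact z2 b (p h1) hj
  intro a b a' b' α t β s h1 h2 hj
  by_cases k1 : a = a'
  · subst k1; exact q h1 h2 hj
  by_cases k2 : a = b'
  · subst k2; exact s2 (q h1 h2.symm) hj
  by_cases k3 : b = a'
  · subst k3; exact s1 (q h1.symm h2) hj
  by_cases k4 : b = b'
  · subst k4; exact s1 (s2 (q h1.symm h2.symm)) hj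
  rcases hQ a b a' b' h1 k1 k2 k3 k4 h2 α t β s hj with rfl | rfl | rfl | rfl
  · exact s1 (z1 a' (s1 (q (Ne.symm k3) h2))) hj
  · exact z1 a' (s1 (q (Ne.symm k1) h2)) hj
  · exact s2 (z2 a (s2 (q h1 k2))) hj
  · exact z2 a (s2 (q h1 k1)) hj

theorem PR2.nd {c : ι → κ → ℂ} (h : PR2 c) {a b : ι} (hab : a ≠ b) : ND (c a) (c b) := by
  refine Pair.nd fun α t β s hj => ?_
  obtain ⟨γ, h1, h2⟩ := h a b a b α t β s hab hab hj
  exact ⟨γ, h1, by simpa [hab] using congrFun h2 a, by simpa [hab.symm] using congrFun h2 b⟩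

theorem PR2.trip {c : ι → κ → ℂ} (h : PR2 c) {a b d : ι} (h1 : a ≠ b) (h2 : a ≠ d) (h3 : b ≠ d) :
    Trip (c a) (c b) (c d) := by
  intro α t β s hj
  obtain ⟨γ, k1, k2⟩ := h a b a d α t β s h1 h2 hj
  have : γ ≠ 0 := by rintro rfl; simp at k1
  exact ⟨by simpa [h1.symm, h3] using congrFun k2 b,
    by simpa [h2.symm, h3.symm, this] using congrFun k2 d⟩

/-- phase retrieval for vectors with at most `k` nonzero coordinates -/
def SPR {n N : ℕ} (k : ℕ) (f : Fin N → EuclideanSpace ℂ (Fin n)) : Prop :=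
  ∀ x y : EuclideanSpace ℂ (Fin n), (Finset.univ.filter fun i => x i ≠ 0).card ≤ k →
    (Finset.univ.filter fun i => y i ≠ 0).card ≤ k →
    (∀ j, ‖inner ℂ (f j) x‖ = ‖inner ℂ (f j) y‖) → ∃ c : ℂ, ‖c‖ = 1 ∧ x = c • y

theorem inner_two {n : ℕ} (f : EuclideanSpace ℂ (Fin n)) (a b : Fin n) (α t : ℂ) :
    inner ℂ f (WithLp.toLp 2 (Pi.single a α + Pi.single b t : Fin n → ℂ)) =
      α * (starRingEnd ℂ) (f a) + t * (starRingEnd ℂ) (f b) := by
  simp [PiLp.inner_apply, add_mul, Finset.sum_add_distrib, Pi.single_apply]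

theorem two_sparse {n : ℕ} (hn : 2 ≤ n) (x : EuclideanSpace ℂ (Fin n))
    (hx : (Finset.univ.filter fun i => x i ≠ 0).card ≤ 2) :
    ∃ a b : Fin n, a ≠ b ∧ x = WithLp.toLp 2 (Pi.single a (x a) + Pi.single b (x b)) := by
  obtain ⟨s, h1, -, h2⟩ := Finset.exists_subsuperset_card_eq (Finset.subset_univ _) hx
    (by simpa using hn)
  obtain ⟨a, b, hab, rfl⟩ := Finset.card_eq_two.1 h2
  refine ⟨a, b, hab, ?_⟩
  ext i
  by_cases ha : i = a
  · simp [ha, hab]
  by_cases hb : i = b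
  · simp [hb, hab.symm]
  have : x i = 0 := by
    by_contra h
    have := h1 (Finset.mem_filter.2 ⟨Finset.mem_univ i, h⟩)
    simp [ha, hb] at this
  simp [ha, hb, this]

theorem spr_iff {n N : ℕ} (hn : 2 ≤ n) (f : Fin N → EuclideanSpace ℂ (Fin n)) :
    SPR 2 f ↔ PR2 fun i j => (starRingEnd ℂ) (f j i) := by
  constructor
  · intro h a b a' b' α t β s h1 h2 hj
    have key : ∀ (a b : Fin n) (α t : ℂ), (Finset.univ.filter fun i =>
        (WithLp.toLp 2 (Pi.single a α + Pi.single b t : Fin n → ℂ)) i ≠ 0).card ≤ 2 := by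
      intro a b α t
      refine (Finset.card_le_card (t := {a, b}) fun i hi => ?_).trans Finset.card_le_two
      by_contra hn
      simp only [Finset.mem_insert, Finset.mem_singleton, not_or] at hn
      simp [hn.1, hn.2] at hi
    obtain ⟨γ, k1, k2⟩ := h _ _ (key a b α t) (key a' b' β s) fun j => by
      rw [inner_two, inner_two, norm_eq_iff]; exact hj j
    exact ⟨γ, k1, congrArg WithLp.ofLp k2⟩
  · intro h x y hx hy hj
    obtain ⟨a, b, h1, e1⟩ := two_sparse hn x hx
    obtain ⟨a', b', h2, e2⟩ := two_sparse hn y hy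
    obtain ⟨γ, k1, k2⟩ := h a b a' b' (x a) (x b) (y a') (y b') h1 h2 fun j => by
      rw [← inner_two, ← inner_two, ← e1, ← e2, ← norm_eq_iff]; exact hj j
    refine ⟨γ, k1, ?_⟩
    rw [e1, e2, k2]
    rfl

theorem span_of_li {n N : ℕ} (f : Fin N → EuclideanSpace ℂ (Fin n))
    (h : LinearIndependent ℂ fun i j => (starRingEnd ℂ) (f j i)) :
    Submodule.span ℂ (Set.range f) = ⊤ := by
  rw [← Submodule.orthogonal_eq_bot_iff, eq_bot_iff]
  intro x hx
  rw [Submodule.mem_bot]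
  ext i
  refine Fintype.linearIndependent_iff.1 h (fun i => x i) ?_ i
  funext j
  have := (Submodule.mem_orthogonal _ _).1 hx (f j) (Submodule.subset_span ⟨j, rfl⟩)
  simpa [PiLp.inner_apply, Finset.sum_apply] using this

theorem exists_frame {n N : ℕ} (hn : 2 ≤ n) (c : Fin n → Fin N → ℂ) (h1 : PR2 c)
    (h2 : LinearIndependent ℂ c) :
    ∃ f : Fin N → EuclideanSpace ℂ (Fin n), Submodule.span ℂ (Set.range f) = ⊤ ∧ SPR 2 f :=
  ⟨fun j => WithLp.toLp 2 fun i => (starRingEnd ℂ) (c i j), span_of_li _ (by simpa using h2),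
    (spr_iff hn _).2 (by simpa using h1)⟩

theorem upper {n : ℕ} (hn : 2 ≤ n) : ∃ f : Fin (max n 5) → EuclideanSpace ℂ (Fin n),
    Submodule.span ℂ (Set.range f) = ⊤ ∧ SPR 2 f := by
  obtain ⟨e⟩ : Nonempty (Fin n ↪ Fin 5 ⊕ Fin (n - 5)) :=
    Function.Embedding.nonempty_of_card_le (by simp; omega)
  obtain ⟨r⟩ : Nonempty (Fin (max n 5) ≃ Fin 5 ⊕ Fin (n - 5)) :=
    Fintype.card_eq.1 (by simp; omega)
  refine exists_frame hn (fun i j => col _ (e i) (r j)) (pr2_of ?_ ?_ ?_) ?_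
  · intro a b h D A P hj
    exact col_nd (e.injective.ne h) D A P fun j => by simpa using hj (r.symm j)
  · intro a b d h1 h2 h3 α t β s hj
    exact col_t (e.injective.ne h1) (e.injective.ne h2) (e.injective.ne h3) α t β s
      fun j => by simpa using hj (r.symm j)
  · intro a b d k h1 h2 h3 h4 h5 h6 α t β s hj
    exact col_q (e.injective.ne h1) (e.injective.ne h2) (e.injective.ne h3) (e.injective.ne h4)
      (e.injective.ne h5) (e.injective.ne h6) α t β s fun j => by simpa using hj (r.symm j)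
  · exact (col_li.comp e e.injective).map' (LinearEquiv.funCongrLeft ℂ ℂ r).toLinearMap
      (LinearEquiv.ker _)

theorem upper_two : ∃ f : Fin 4 → EuclideanSpace ℂ (Fin 2),
    Submodule.span ℂ (Set.range f) = ⊤ ∧ SPR 2 f := by
  have h : ND (![1, 0, 1, 1] : Fin 4 → ℂ) ![0, 1, 1, I] := by
    intro D A P hj
    have j0 := hj 0
    have j1 := hj 1
    have j2 := hj 2
    have j3 := hj 3
    simp [ph] at j0 j1 j2 j3
    refine ⟨j0, Complex.ext ?_ ?_, j1⟩ <;> simp only [zero_re, zero_im] <;> linarith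
  refine exists_frame le_rfl ![![1, 0, 1, 1], ![0, 1, 1, I]] (pr2_of ?_ ?_ ?_) ?_
  · intro a b hab
    fin_cases a <;> fin_cases b
    · exact absurd rfl hab
    · exact h
    · exact h.symm
    · exact absurd rfl hab
  · intro a b d h1 h2 h3
    omega
  · intro a b d k h1 h2 h3 h4
    omega
  · rw [LinearIndependent.pair_iff]
    intro s t hst
    exact ⟨by simpa using congrFun hst 0, by simpa using congrFun hst 1⟩

theorem lower_span {n N : ℕ} {f : Fin N → EuclideanSpace ℂ (Fin n)}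
    (h : Submodule.span ℂ (Set.range f) = ⊤) : n ≤ N := by
  simpa using finrank_le_of_span_eq_top h

theorem lower_four {n N : ℕ} (hn : 2 ≤ n) {f : Fin N → EuclideanSpace ℂ (Fin n)} (h : SPR 2 f) :
    4 ≤ N :=
  (((spr_iff hn f).1 h).nd (a := ⟨0, by omega⟩) (b := ⟨1, by omega⟩) (by simp)).four_le

theorem lower_five {n N : ℕ} (hn : 3 ≤ n) {f : Fin N → EuclideanSpace ℂ (Fin n)} (h : SPR 2 f) :
    5 ≤ N := by
  have h4 := lower_four (by omega) h
  by_contra h5
  obtain rfl : N = 4 := by omega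
  have h1 := (spr_iff (by omega) f).1 h
  exact not_four (h1.nd (a := ⟨0, by omega⟩) (b := ⟨1, by omega⟩) (by simp))
    (h1.nd (b := ⟨2, by omega⟩) (by simp)) (h1.nd (by simp))
    (h1.trip (by simp) (by simp) (by simp)) (h1.trip (by simp) (by simp) (by simp))

end Pool.Agent.P.MP_32bf8a_an
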