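import Pool.Agent.P.MP_32bf8a_an.Lower

/-!
An explicit five by five example, extended by directly measured coordinates.
-/

open Complex

namespace Pool.Agent.P.MP_32bf8a_an

def TOr {κ : Type*} (a b c : κ → ℂ) : Prop :=
  ∀ α t β s : ℂ, (∀ j, normSq (α * a j + t * b j) = normSq (β * a j + s * c j)) → t = 0 ∨ s = 0

def QOr {κ : Type*} (a b c d : κ → ℂ) : Prop :=
  ∀ α t β s : ℂ, (∀ j, normSq (α * a j + t * b j) = normSq (β * c j + s * d j)) →
    α = 0 ∨ t = 0 ∨ β = 0 ∨ s = 0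

theorem TOr.symm {κ : Type*} {a b c : κ → ℂ} (h : TOr a b c) : TOr a c b :=
  fun α t β s hj => (h β s α t fun j => (hj j).symm).symm

def gr : Fin 5 → Fin 5 → ℤ :=
  ![![1, 0, 0, 1, 1], ![0, 1, 0, 1, -1], ![0, 0, 1, 1, 2], ![1, -1, 2, 0, -3], ![-1, 1, 2, 0, 3]]

def gi : Fin 5 → Fin 5 → ℤ :=
  ![![0, 0, 0, 0, 0], ![0, 0, 0, 0, -1], ![0, 0, 0, 0, -1], ![0, 2, -3, 0, -3], ![0, 1, -10, 0, 2]]

def g (a j : Fin 5) : ℂ := ⟨gr a j, gi a j⟩

def sS (w : Fin 5 → ℤ) (a : Fin 5) : ℤ := ∑ j, w j * (gr a j ^ 2 + gi a j ^ 2)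

def sX (w : Fin 5 → ℤ) (a b : Fin 5) : ℤ := ∑ j, w j * (gr a j * gr b j + gi a j * gi b j)

def sY (w : Fin 5 → ℤ) (a b : Fin 5) : ℤ := ∑ j, w j * (gi a j * gr b j - gr a j * gi b j)

theorem sum_w (w : Fin 5 → ℤ) (a b : Fin 5) (α t : ℂ) :
    ∑ j, (w j : ℝ) * normSq (α * g a j + t * g b j) = normSq α * sS w a +
      2 * ((α * (starRingEnd ℂ) t).re * sX w a b - (α * (starRingEnd ℂ) t).im * sY w a b) +
      normSq t * sS w b := by
  simp only [normSq_eq_ph, ph, g, sS, sX, sY, Fin.sum_univ_five]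
  push_cast
  ring

def PD (w : Fin 5 → ℤ) (a b : Fin 5) : Prop :=
  0 < sS w a ∧ sX w a b ^ 2 + sY w a b ^ 2 < sS w a * sS w b

instance (w : Fin 5 → ℤ) (a b : Fin 5) : Decidable (PD w a b) := by unfold PD; infer_instance

theorem PD.pos {w : Fin 5 → ℤ} {a b : Fin 5} (h : PD w a b) (α : ℂ) {t : ℂ} (ht : t ≠ 0) :
    0 < ∑ j, (w j : ℝ) * normSq (α * g a j + t * g b j) := by
  rw [sum_w]
  have h1 : (0 : ℝ) < sS w a := by exact_mod_cast h.1
  have h2 : (sX w a b : ℝ) ^ 2 + (sY w a b : ℝ) ^ 2 < sS w a * sS w b := by exact_mod_cast h.2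
  have h3 := normSq_pos.2 ht
  generalize (sS w a : ℝ) = S at *
  generalize (sS w b : ℝ) = T at *
  generalize (sX w a b : ℝ) = X at *
  generalize (sY w a b : ℝ) = Y at *
  refine pos_of_mul_pos_left (b := S) ?_ h1.le
  simp only [normSq_apply, mul_re, mul_im, conj_re, conj_im] at h3 ⊢
  nlinarith [mul_pos h3 (sub_pos.2 h2), sq_nonneg (S * α.re + X * t.re + Y * t.im),
    sq_nonneg (S * α.im + X * t.im - Y * t.re)]

def lq : List (Fin 5 → ℤ) :=
  [![4, 4, -10, -1, -1], ![4, 4, -2, 0, -1], ![3, 3, -1, 2, -1], ![7, -20, -4, 0, 1],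
    ![2, -2, -1, -1, 1], ![3, -6, -1, 3, 0], ![10, -1, 4, -4, -1], ![4, 0, -1, -3, 1],
    ![2, 10, -1, 2, -1], ![3, -2, 1, -1, -1], ![2, -3, 1, 1, -1], ![7, -8, 1, -3, -1],
    ![-20, -1, -1, 14, 1], ![50, 8, -1, 4, -1], ![-50, 5, 1, 0, -1]]

theorem q_cert : ∀ a b c d : Fin 5, a ≠ b → a ≠ c → a ≠ d → b ≠ c → b ≠ d → c ≠ d →
    ∃ w ∈ lq, (PD w a b ∧ PD (fun j => -w j) c d) ∨ (PD w c d ∧ PD (fun j => -w j) a b) := by
  decide +kernel

theorem g_q {a b c d : Fin 5} (h1 : a ≠ b) (h2 : a ≠ c) (h3 : a ≠ d) (h4 : b ≠ c) (h5 : b ≠ d)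
    (h6 : c ≠ d) : QOr (g a) (g b) (g c) (g d) := by
  intro α t β s hj
  by_contra hn
  push Not at hn
  obtain ⟨w, -, ⟨k1, k2⟩ | ⟨k1, k2⟩⟩ := q_cert a b c d h1 h2 h3 h4 h5 h6
  · have p1 := k1.pos α hn.2.1
    have p2 := k2.pos β hn.2.2.2
    simp only [hj, Int.cast_neg, neg_mul, Finset.sum_neg_distrib] at p1 p2
    linarith
  · have p1 := k1.pos β hn.2.2.2
    have p2 := k2.pos α hn.2.1
    simp only [hj, Int.cast_neg, neg_mul, Finset.sum_neg_distrib] at p1 p2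
    linarith

def lt : List (Fin 5 → ℤ) :=
  [![-13, 0, 1, 0, 0], ![-2, 1, 0, 0, 0], ![0, -3, 1, 0, 0], ![0, 0, 0, 1, 0], ![0, 0, 1, 0, 0],
    ![0, 1, 0, 0, 0], ![1, 0, 0, 0, 0]]

theorem t_cert : ∀ a b c : Fin 5, a ≠ b → a ≠ c → b ≠ c → (3 ≤ a ∧ b < 3 ∧ c < 3) ∨
    ∃ w ∈ lt, (∀ j, w j = 0 ∨ (gr a j = 0 ∧ gi a j = 0)) ∧
      ((0 < sS w b ∧ sS w c ≤ 0) ∨ (0 < sS w c ∧ sS w b ≤ 0)) := by
  decide +kernel

theorem e_cert : ∀ b c : Fin 5, b ≠ c → ∃ w ∈ lt, (∀ j, w j = 0 ∨ j = 1 ∨ j = 2) ∧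
    ((0 < sS w b ∧ sS w c ≤ 0) ∨ (0 < sS w c ∧ sS w b ≤ 0)) := by
  decide +kernel

theorem tor_of_w {a : Fin 5 → ℂ} {b c : Fin 5} {w : Fin 5 → ℤ} (h : ∀ j, w j = 0 ∨ a j = 0)
    (hs : (0 < sS w b ∧ sS w c ≤ 0) ∨ (0 < sS w c ∧ sS w b ≤ 0)) : TOr a (g b) (g c) := by
  intro α t β s hj
  have h1 : ∑ j, (w j : ℝ) * normSq (0 * g b j + t * g b j) =
      ∑ j, (w j : ℝ) * normSq (0 * g c j + s * g c j) := Finset.sum_congr rfl fun j _ => by
    rcases h j with h | h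
    · simp [h]
    · simpa [h] using Or.inl (by simpa [h] using hj j)
  rw [sum_w, sum_w] at h1
  simp only [map_zero, zero_mul, zero_re, zero_im, sub_zero, mul_zero, zero_add] at h1
  by_contra hn
  push Not at hn
  have h2 := normSq_pos.2 hn.1
  have h3 := normSq_pos.2 hn.2
  rcases hs with ⟨k1, k2⟩ | ⟨k1, k2⟩
  · have k1 : (0 : ℝ) < sS w b := by exact_mod_cast k1
    have k2 : (sS w c : ℝ) ≤ 0 := by exact_mod_cast k2
    nlinarith [mul_pos h2 k1, mul_nonneg h3.le (neg_nonneg.2 k2)]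
  · have k1 : (0 : ℝ) < sS w c := by exact_mod_cast k1
    have k2 : (sS w b : ℝ) ≤ 0 := by exact_mod_cast k2
    nlinarith [mul_pos h3 k1, mul_nonneg h2.le (neg_nonneg.2 k2)]

theorem tor_of_lin {κ : Type*} {a b c : κ → ℂ} (h : ∀ (D D' : ℝ) (A B : ℂ) (P R : ℝ), 0 < P →
    A.re ^ 2 + A.im ^ 2 = D * P → B.re ^ 2 + B.im ^ 2 = D' * R →
    (∀ j, ph D A P (a j) (b j) = ph D' B R (a j) (c j)) → False) : TOr a b c := by
  intro α t β s hj
  by_contra hn
  push Not at hn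
  refine h (normSq α) (normSq β) (α * (starRingEnd ℂ) t) (β * (starRingEnd ℂ) s) (normSq t)
    (normSq s) (normSq_pos.2 hn.1) ?_ ?_ fun j => ?_
  · simp only [normSq_apply, mul_re, mul_im, conj_re, conj_im]; ring
  · simp only [normSq_apply, mul_re, mul_im, conj_re, conj_im]; ring
  · rw [← normSq_eq_ph, ← normSq_eq_ph, hj]

theorem quad {x P A1 B1 B2 D D' R a1 a2 b1 b2 c1 c2 : ℝ} (hP : 0 < P)
    (h1 : A1 ^ 2 + x ^ 2 = D * P) (h2 : B1 ^ 2 + B2 ^ 2 = D' * R) (h3 : D' = D) (h4 : R = P)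
    (e1 : A1 = a1 * x + a2 * P) (e2 : B1 = b1 * x + b2 * P) (e3 : B2 = c1 * x + c2 * P)
    (hd : 0 < (a1 ^ 2 + 1 - b1 ^ 2 - c1 ^ 2) * (a2 ^ 2 - b2 ^ 2 - c2 ^ 2) -
      (a1 * a2 - b1 * b2 - c1 * c2) ^ 2) : False := by
  subst h3 h4 e1 e2 e3
  have h5 : (a1 ^ 2 + 1 - b1 ^ 2 - c1 ^ 2) * x ^ 2 + 2 * (a1 * a2 - b1 * b2 - c1 * c2) * x * R +
      (a2 ^ 2 - b2 ^ 2 - c2 ^ 2) * R ^ 2 = 0 := by linear_combination h1 - h2
  generalize a1 ^ 2 + 1 - b1 ^ 2 - c1 ^ 2 = u at *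
  generalize a2 ^ 2 - b2 ^ 2 - c2 ^ 2 = v at *
  generalize a1 * a2 - b1 * b2 - c1 * c2 = w at *
  have h6 : (u * x + w * R) ^ 2 + (u * v - w ^ 2) * R ^ 2 = 0 := by linear_combination u * h5
  have := mul_pos hd (pow_pos hP 2)
  nlinarith [sq_nonneg (u * x + w * R)]

theorem g_t_hard {a b c : Fin 5} (ha : 3 ≤ a) (hbc : b < c) (hc : c < 3) :
    TOr (g a) (g b) (g c) := by
  refine tor_of_lin fun D D' A B P R hP h1 h2 hj => ?_
  have j0 := hj 0
  have j1 := hj 1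
  have j2 := hj 2
  have j3 := hj 3
  have j4 := hj 4
  fin_cases a <;> fin_cases b <;> fin_cases c <;> first | exact absurd ha (by decide) | exact absurd hbc (by decide) | exact absurd hc (by decide) | skip
  all_goals simp [ph, g, gr, gi] at j0 j1 j2 j3 j4
  all_goals norm_num at j0 j1 j2 j3 j4
  · exact quad (a1 := 0) (a2 := -1 / 2) (b1 := 1 / 2) (b2 := 1 / 6) (c1 := -1 / 4) (c2 := 1 / 6)
      hP h1 h2 (by linarith) (by linarith) (by linarith) (by linarith) (by linarith) (by norm_num)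
  · exact quad (a1 := 0) (a2 := -1 / 2) (b1 := -1 / 3) (b2 := -1 / 9) (c1 := 2 / 9) (c2 := -5 / 54)
      hP h1 h2 (by linarith) (by linarith) (by linarith) (by linarith) (by linarith) (by norm_num)
  · exact quad (a1 := -2) (a2 := 1 / 2) (b1 := 4 / 3) (b2 := -1 / 3) (c1 := -8 / 9) (c2 := 1 / 18)
      hP h1 h2 (by linarith) (by linarith) (by linarith) (by linarith) (by linarith) (by norm_num)
  · exact quad (a1 := 0) (a2 := 1 / 2) (b1 := 1 / 3) (b2 := -1 / 4) (c1 := 1 / 3) (c2 := 1 / 4)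
      hP h1 h2 (by linarith) (by linarith) (by linarith) (by linarith) (by linarith) (by norm_num)
  · exact quad (a1 := 0) (a2 := 1 / 2) (b1 := -10 / 27) (b2 := -17 / 108) (c1 := 2 / 27)
      (c2 := -1 / 54)
      hP h1 h2 (by linarith) (by linarith) (by linarith) (by linarith) (by linarith) (by norm_num)
  · exact quad (a1 := 1) (a2 := -1 / 2) (b1 := -10 / 9) (b2 := 13 / 108) (c1 := 2 / 9)
      (c2 := -2 / 27)
      hP h1 h2 (by linarith) (by linarith) (by linarith) (by linarith) (by linarith) (by norm_num)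

theorem g_t {a b c : Fin 5} (h1 : a ≠ b) (h2 : a ≠ c) (h3 : b ≠ c) : TOr (g a) (g b) (g c) := by
  rcases t_cert a b c h1 h2 h3 with ⟨k1, k2, k3⟩ | ⟨w, -, k1, k2⟩
  · rcases lt_or_gt_of_ne h3 with h | h
    · exact g_t_hard k1 h k3
    · exact (g_t_hard k1 h k2).symm
  · exact tor_of_w (fun j => (k1 j).imp_right fun h => by simp [g, h.1, h.2]; rfl) k2

theorem g_nd' {a b : Fin 5} (h : a < b) : ND (g a) (g b) := by
  intro D A P hj
  have j0 := hj 0
  have j1 := hj 1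
  have j2 := hj 2
  have j3 := hj 3
  have j4 := hj 4
  fin_cases a <;> fin_cases b <;> first | exact absurd h (by decide) | skip
  all_goals
    simp [ph, g, gr, gi] at j0 j1 j2 j3 j4
    try norm_num at j0 j1 j2 j3 j4
    refine ⟨by linarith, Complex.ext ?_ ?_, by linarith⟩ <;> simp only [zero_re, zero_im] <;>
      linarith

theorem g_nd {a b : Fin 5} (h : a ≠ b) : ND (g a) (g b) := by
  rcases lt_or_gt_of_ne h with h | h
  · exact g_nd' h
  · exact (g_nd' h).symm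

/-- the dense part of an extra column -/
def ex (τ : ℝ) : Fin 5 → ℂ := ![1, 0, 0, ⟨-τ, 1⟩, ⟨τ, -1⟩]

theorem ex_t (τ : ℝ) {b c : Fin 5} (h : b ≠ c) : TOr (ex τ) (g b) (g c) := by
  obtain ⟨w, -, k1, k2⟩ := e_cert b c h
  refine tor_of_w (fun j => (k1 j).imp_right ?_) k2
  rintro (rfl | rfl) <;> rfl

theorem ex_nd {τ : ℝ} (hτ : 0 ≤ τ) (b : Fin 5) (A : ℂ) (P : ℝ)
    (hj : ∀ j, ph 0 A P (ex τ j) (g b j) = 0) : A = 0 ∧ P = 0 := by
  have j0 := hj 0
  have j1 := hj 1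
  have j2 := hj 2
  have j3 := hj 3
  have j4 := hj 4
  have hτ2 : 0 < 1 + τ ^ 2 := by positivity
  have hτ3 : 0 < 1 + τ := by positivity
  have hτ4 : 0 < 3 + 2 * τ := by positivity
  fin_cases b <;> simp [ph, g, gr, gi, ex] at j0 j1 j2 j3 j4
  · have hP : P = 0 := by linarith
    have h1 : A.re = 0 := by linarith
    exact ⟨Complex.ext h1 (by rw [h1] at j3; simp only [zero_im]; linarith), hP⟩
  · subst j1
    have h1 : A.re = 0 := mul_left_cancel₀ hτ2.ne' (by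
      linear_combination (1 / 2) * j4 - (1 + τ) / 2 * j3)
    exact ⟨Complex.ext h1 (by rw [h1] at j3; simp only [zero_im]; linarith), rfl⟩
  · subst j2
    have h1 : A.re = 0 := mul_left_cancel₀ hτ2.ne' (by
      linear_combination (1 / 2) * j4 - (-2 + τ) / 2 * j3)
    exact ⟨Complex.ext h1 (by rw [h1] at j3; simp only [zero_im]; linarith), rfl⟩
  · have hP : P = 0 := j1.resolve_right (by norm_num)
    subst hP
    have h1 : A.re = 0 := by linarith
    exact ⟨Complex.ext h1 (mul_left_cancel₀ hτ3.ne' (by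
      rw [h1] at j4; simp only [zero_im]; linarith)), rfl⟩
  · subst j1
    have h1 : A.re = 0 := by linarith
    exact ⟨Complex.ext h1 (mul_left_cancel₀ hτ4.ne' (by
      rw [h1] at j4; simp only [zero_im]; linarith)), rfl⟩

/-- the columns of the measurement matrix -/
def col (m : ℕ) : Fin 5 ⊕ Fin m → Fin 5 ⊕ Fin m → ℂ
  | Sum.inl a => Sum.elim (g a) 0
  | Sum.inr i => Sum.elim (ex (i : ℕ)) (Pi.single i 1)

variable {m : ℕ}

theorem col_inr_self (i : Fin m) : col m (Sum.inr i) (Sum.inr i) = 1 := by simp [col]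

theorem col_inr_ne {i : Fin m} {a : Fin 5 ⊕ Fin m} (h : a ≠ Sum.inr i) :
    col m a (Sum.inr i) = 0 := by
  rcases a with a | k
  · rfl
  · have : i ≠ k := by rintro rfl; exact h rfl
    simp [col, this]

theorem col_nd {a b : Fin 5 ⊕ Fin m} (h : a ≠ b) : ND (col m a) (col m b) := by
  have key : ∀ (i : Fin m) (b : Fin 5), ND (col m (Sum.inr i)) (col m (Sum.inl b)) := by
    intro i b D A P hj
    have h1 : D = 0 := by simpa [ph, col] using hj (Sum.inr i)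
    subst h1
    exact ⟨rfl, ex_nd (Nat.cast_nonneg i) b A P fun j => hj (Sum.inl j)⟩
  rcases a with a | i <;> rcases b with b | k
  · exact fun D A P hj => g_nd (fun e => h (congrArg _ e)) D A P fun j => hj (Sum.inl j)
  · exact (key k a).symm
  · exact key i b
  · intro D A P hj
    have h1 : D = 0 := by simpa [ph, col_inr_self, col_inr_ne h.symm] using hj (Sum.inr i)
    have h2 : P = 0 := by simpa [ph, col_inr_self, col_inr_ne h] using hj (Sum.inr k)
    subst h1 h2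
    have h3 : A.re = 0 := by simpa [ph, col, ex] using hj (Sum.inl 0)
    have h4 := hj (Sum.inl 3)
    simp [ph, col, ex, h3] at h4
    refine ⟨rfl, Complex.ext h3 (h4.resolve_right fun h5 => h ?_), rfl⟩
    have : ((i : ℕ) : ℝ) = (k : ℕ) := by linarith
    rw [Fin.ext (Nat.cast_injective this)]

theorem col_t {a b c : Fin 5 ⊕ Fin m} (h1 : a ≠ b) (h2 : a ≠ c) (h3 : b ≠ c) :
    TOr (col m a) (col m b) (col m c) := by
  intro α t β s hj
  rcases b with b | i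
  · rcases c with c | k
    · have h4 : b ≠ c := fun e => h3 (congrArg _ e)
      rcases a with a | i
      · exact g_t (fun e => h1 (congrArg _ e)) (fun e => h2 (congrArg _ e)) h4 α t β s
          fun j => hj (Sum.inl j)
      · exact ex_t _ h4 α t β s fun j => hj (Sum.inl j)
    · right
      simpa [col_inr_self, col_inr_ne h2, col_inr_ne h3] using (hj (Sum.inr k)).symm
  · left
    simpa [col_inr_self, col_inr_ne h1, col_inr_ne h3.symm] using hj (Sum.inr i)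

theorem col_q {a b c d : Fin 5 ⊕ Fin m} (h1 : a ≠ b) (h2 : a ≠ c) (h3 : a ≠ d) (h4 : b ≠ c)
    (h5 : b ≠ d) (h6 : c ≠ d) : QOr (col m a) (col m b) (col m c) (col m d) := by
  intro α t β s hj
  rcases a with a | i
  swap
  · left
    simpa [col_inr_self, col_inr_ne h1.symm, col_inr_ne h2.symm, col_inr_ne h3.symm]
      using hj (Sum.inr i)
  rcases b with b | i
  swap
  · right; left
    simpa [col_inr_self, col_inr_ne h1, col_inr_ne h4.symm, col_inr_ne h5.symm]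
      using hj (Sum.inr i)
  rcases c with c | i
  swap
  · right; right; left
    simpa [col_inr_self, col_inr_ne h2, col_inr_ne h4, col_inr_ne h6.symm]
      using (hj (Sum.inr i)).symm
  rcases d with d | i
  swap
  · right; right; right
    simpa [col_inr_self, col_inr_ne h3, col_inr_ne h5, col_inr_ne h6]
      using (hj (Sum.inr i)).symm
  exact g_q (fun e => h1 (congrArg _ e)) (fun e => h2 (congrArg _ e)) (fun e => h3 (congrArg _ e))
    (fun e => h4 (congrArg _ e)) (fun e => h5 (congrArg _ e)) (fun e => h6 (congrArg _ e))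
    α t β s fun j => hj (Sum.inl j)

theorem col_li : LinearIndependent ℂ (col m) := by
  rw [Fintype.linearIndependent_iff]
  intro x hx
  have h1 : ∀ i, x (Sum.inr i) = 0 := fun i => by
    have := congrFun hx (Sum.inr i)
    simpa [col, Finset.sum_apply, Pi.single_apply] using this
  have h2 : ∀ j, ∑ a, x (Sum.inl a) * g a j = 0 := fun j => by
    have := congrFun hx (Sum.inl j)
    simpa [col, Finset.sum_apply, h1] using this
  have j0 := h2 0
  have j1 := h2 1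
  have j2 := h2 2
  have j3 := h2 3
  have j4 := h2 4
  simp [Fin.sum_univ_five, g, gr, gi, Complex.ext_iff] at j0 j1 j2 j3 j4
  rintro (a | i)
  · obtain ⟨⟨_, _⟩, ⟨_, _⟩, ⟨_, _⟩, ⟨_, _⟩, ⟨_, _⟩⟩ := And.intro j0 (And.intro j1 (And.intro j2
      (And.intro j3 j4)))
    fin_cases a <;> apply Complex.ext <;> simp <;> linarith
  · exact h1 i

end Pool.Agent.P.MP_32bf8a_an
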